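import Pool.Agent.Helper68.Mat.Block

/-!
# Pushing ones of a `d`-dimensional 0-1 pattern inward (MP_2bee9d_co)

Patterns and arrays are finite sets of points of `ℕ^d`; `k` and `n` are the side lengths.
-/

set_option autoImplicit false

namespace Pool.Agent.MatPush

open Finset

variable {d : ℕ}

/-- the box `∏ {0, …, n_l - 1}` -/
def box (n : Fin d → ℕ) : Finset (Fin d → ℕ) := Fintype.piFinset fun l => Finset.range (n l)

theorem mem_box {n x : Fin d → ℕ} : x ∈ box n ↔ ∀ l, x l < n l := by
  simp [box]

theorem card_box (n : Fin d → ℕ) : (box n).card = ∏ l, n l := by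
  simp [box]

/-- `A`, of side lengths `n`, contains `P`, of side lengths `k` -/
def Cont (k n : Fin d → ℕ) (P A : Finset (Fin d → ℕ)) : Prop :=
  ∃ φ : Fin d → ℕ → ℕ, (∀ l, StrictMono (φ l)) ∧ (∀ l, φ l (k l) ≤ n l) ∧
    ∀ x ∈ P, (fun l => φ l (x l)) ∈ A

open Classical in
/-- the extremal function -/
noncomputable def exB (k n : Fin d → ℕ) (P : Finset (Fin d → ℕ)) : ℕ :=
  ((box n).powerset.filter fun A => ¬ Cont k n P A).sup Finset.card

theorem card_le_exB {k n : Fin d → ℕ} {P A : Finset (Fin d → ℕ)} (hA : A ⊆ box n)
    (h : ¬ Cont k n P A) : A.card ≤ exB k n P := by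
  classical
  unfold exB
  exact Finset.le_sup (f := Finset.card) (by
    rw [Finset.mem_filter, Finset.mem_powerset]
    exact ⟨hA, h⟩)

theorem exB_le {k n : Fin d → ℕ} {P : Finset (Fin d → ℕ)} {N : ℕ}
    (h : ∀ A, A ⊆ box n → ¬ Cont k n P A → A.card ≤ N) : exB k n P ≤ N := by
  classical
  unfold exB
  refine Finset.sup_le fun A hA => ?_
  rw [Finset.mem_filter, Finset.mem_powerset] at hA
  exact h A hA.1 hA.2

theorem not_cont_empty {k n : Fin d → ℕ} {P : Finset (Fin d → ℕ)} (hP : P.Nonempty) :
    ¬ Cont k n P ∅ := by
  rintro ⟨φ, -, -, h⟩
  obtain ⟨x, hx⟩ := hP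
  exact absurd (h x hx) (Finset.notMem_empty _)

theorem exists_exB {k n : Fin d → ℕ} {P : Finset (Fin d → ℕ)} (hP : P.Nonempty) :
    ∃ A, A ⊆ box n ∧ ¬ Cont k n P A ∧ A.card = exB k n P := by
  classical
  have hne : ((box n).powerset.filter fun A => ¬ Cont k n P A).Nonempty :=
    ⟨∅, by
      rw [Finset.mem_filter, Finset.mem_powerset]
      exact ⟨Finset.empty_subset _, not_cont_empty hP⟩⟩
  obtain ⟨A, hA, hs⟩ := Finset.exists_mem_eq_sup _ hne Finset.card
  rw [Finset.mem_filter, Finset.mem_powerset] at hA
  refine ⟨A, hA.1, hA.2, ?_⟩
  unfold exB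
  exact hs.symm

theorem strictMono_add {f : ℕ → ℕ} (hf : StrictMono f) {a b : ℕ} (h : a ≤ b) :
    f a + (b - a) ≤ f b := by
  induction b, h using Nat.le_induction with
  | base => simp
  | succ b hb ih =>
    have h1 := hf (Nat.lt_add_one b)
    omega

theorem le_strictMono {f : ℕ → ℕ} (hf : StrictMono f) (a : ℕ) : a ≤ f a := hf.le_apply

theorem prod_update_one (n : Fin d → ℕ) (i : Fin d) :
    ∏ l, Function.update n i 1 l = ∏ l ∈ univ.erase i, n l := by
  rw [← Finset.mul_prod_erase univ _ (Finset.mem_univ i), Function.update_self, one_mul]
  exact Finset.prod_congr rfl fun l hl => Function.update_of_ne (Finset.ne_of_mem_erase hl) _ _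

/-- the points of `A` which are extreme on their line: at most one per line -/
theorem card_extreme_le {n : Fin d → ℕ} {A : Finset (Fin d → ℕ)} (hA : A ⊆ box n) (i : Fin d)
    (B : Finset (Fin d → ℕ)) (hB : B ⊆ A)
    (h : ∀ p ∈ B, ∀ q ∈ B, (∀ l, l ≠ i → q l = p l) → p i = q i) :
    B.card ≤ ∏ l ∈ univ.erase i, n l := by
  rw [← prod_update_one, ← card_box]
  apply Finset.card_le_card_of_injOn (fun p => Function.update p i 0)
  · intro p hp
    simp only [Finset.mem_coe]
    rw [mem_box]
    intro l
    rcases eq_or_ne l i with rfl | hl
    · simp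
    · rw [Function.update_of_ne hl, Function.update_of_ne hl]
      exact mem_box.1 (hA (hB (Finset.mem_coe.1 hp))) l
  · intro p hp q hq hpq
    simp only at hpq
    have h1 : ∀ l, l ≠ i → q l = p l := by
      intro l hl
      have := congrFun hpq l
      rw [Function.update_of_ne hl, Function.update_of_ne hl] at this
      exact this.symm
    funext l
    rcases eq_or_ne l i with rfl | hl
    · exact h p (Finset.mem_coe.1 hp) q (Finset.mem_coe.1 hq) h1
    · exact (h1 l hl).symm

/-- pushing the last one inward -/
theorem push_top {k n : Fin d → ℕ} {P : Finset (Fin d → ℕ)} {i : Fin d} {c : ℕ}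
    (hk : k i = c + 2) (hP : P ⊆ box k)
    (h1 : ∀ x ∈ P, ∀ y ∈ P, x i = c + 1 → y i = c + 1 → x = y) :
    exB k n P ≤ ∏ l ∈ univ.erase i, n l +
      exB (Function.update k i (c + 1)) (Function.update n i (n i - 1))
        (P.image fun x => Function.update x i (min (x i) c)) := by
  classical
  apply exB_le
  intro A hA hav
  set A1 := A.filter fun p => ∃ q ∈ A, (∀ l, l ≠ i → q l = p l) ∧ p i < q i with hA1
  have hcard : A.card = (A.filter fun p => ¬ ∃ q ∈ A, (∀ l, l ≠ i → q l = p l) ∧ p i < q i).card
      + A1.card := by
    rw [hA1, add_comm]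
    exact (Finset.card_filter_add_card_filter_not _).symm
  have h2 : (A.filter fun p => ¬ ∃ q ∈ A, (∀ l, l ≠ i → q l = p l) ∧ p i < q i).card
      ≤ ∏ l ∈ univ.erase i, n l := by
    apply card_extreme_le hA i _ (Finset.filter_subset _ _)
    intro p hp q hq hpq
    rw [Finset.mem_filter] at hp hq
    rcases lt_trichotomy (p i) (q i) with h | h | h
    · exact absurd ⟨q, hq.1, hpq, h⟩ hp.2
    · exact h
    · exact absurd ⟨p, hp.1, fun l hl => (hpq l hl).symm, h⟩ hq.2
  have h3 : A1 ⊆ box (Function.update n i (n i - 1)) := by
    intro p hp
    rw [hA1, Finset.mem_filter] at hp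
    obtain ⟨hpA, q, hqA, hq, hlt⟩ := hp
    rw [mem_box]
    intro l
    rcases eq_or_ne l i with rfl | hl
    · rw [Function.update_self]
      have := mem_box.1 (hA hqA) l
      omega
    · rw [Function.update_of_ne hl]
      exact mem_box.1 (hA hpA) l
  have h4 : ¬ Cont (Function.update k i (c + 1)) (Function.update n i (n i - 1))
      (P.image fun x => Function.update x i (min (x i) c)) A1 := by
    rintro ⟨φ, hφ, hφn, hφA⟩
    apply hav
    have hni : φ i (c + 1) ≤ n i - 1 := by
      have := hφn i
      rwa [Function.update_self, Function.update_self] at this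
    have hr : ∃ r, φ i c < r ∧ r < n i ∧ ∀ x ∈ P, x i = c + 1 →
        (fun l => if l = i then r else φ l (x l)) ∈ A := by
      by_cases hz : ∃ z ∈ P, z i = c + 1
      · obtain ⟨z, hz, hzi⟩ := hz
        have h5 := hφA _ (Finset.mem_image_of_mem _ hz)
        rw [hA1, Finset.mem_filter] at h5
        obtain ⟨-, q, hqA, hq, hlt⟩ := h5
        refine ⟨q i, ?_, mem_box.1 (hA hqA) i, ?_⟩
        · have h6 : min (z i) c = c := by omega
          simpa [h6] using hlt
        · intro x hx hxi
          obtain rfl := h1 x hx z hz hxi hzi
          have h7 : (fun l => if l = i then q i else φ l (x l)) = q := by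
            funext l
            rcases eq_or_ne l i with rfl | hl
            · simp
            · rw [if_neg hl, hq l hl]
              change φ l (x l) = φ l (Function.update x i (min (x i) c) l)
              rw [Function.update_of_ne hl]
          rw [h7]
          exact hqA
      · refine ⟨n i - 1, ?_, ?_, ?_⟩
        · exact lt_of_lt_of_le (hφ i (Nat.lt_add_one c)) hni
        · have := le_strictMono (hφ i) (c + 1)
          omega
        · intro x hx hxi
          exact absurd ⟨x, hx, hxi⟩ hz
    obtain ⟨r, hr1, hr2, hr3⟩ := hr
    set ψ : ℕ → ℕ := fun m => if m ≤ c then φ i m else if m = c + 1 then r else n i + (m - (c + 2))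
      with hψ
    have hψm : StrictMono ψ := by
      apply strictMono_nat_of_lt_succ
      intro m
      rcases lt_trichotomy m c with h | h | h
      · simp only [hψ]
        rw [if_pos h.le, if_pos (by omega)]
        exact hφ i (Nat.lt_add_one m)
      · simp only [hψ]
        rw [if_pos h.le, if_neg (by omega), if_pos (by omega), h]
        exact hr1
      · simp only [hψ]
        split_ifs <;> omega
    refine ⟨Function.update φ i ψ, ?_, ?_, ?_⟩
    · intro l
      rcases eq_or_ne l i with rfl | hl
      · rw [Function.update_self]
        exact hψm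
      · rw [Function.update_of_ne hl]
        exact hφ l
    · intro l
      rcases eq_or_ne l i with rfl | hl
      · rw [Function.update_self, hk]
        simp only [hψ]
        rw [if_neg (by omega), if_neg (by omega)]
        omega
      · have := hφn l
        rw [Function.update_of_ne hl, Function.update_of_ne hl] at this
        rw [Function.update_of_ne hl]
        exact this
    · intro x hx
      have hxi : x i < c + 2 := by
        have := mem_box.1 (hP hx) i
        rwa [hk] at this
      by_cases h5 : x i = c + 1
      · have h6 := hr3 x hx h5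
        have h7 : (fun l => Function.update φ i ψ l (x l)) = fun l => if l = i then r else φ l (x l) := by
          funext l
          rcases eq_or_ne l i with rfl | hl
          · rw [Function.update_self, if_pos rfl, h5]
            simp only [hψ]
            rw [if_neg (by omega)]
            simp
          · rw [Function.update_of_ne hl, if_neg hl]
        rw [h7]
        exact h6
      · have h6 := hφA _ (Finset.mem_image_of_mem _ hx)
        have h7 : (fun l => Function.update φ i ψ l (x l)) =
            fun l => φ l (Function.update x i (min (x i) c) l) := by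
          funext l
          rcases eq_or_ne l i with rfl | hl
          · rw [Function.update_self, Function.update_self]
            simp only [hψ]
            rw [if_pos (by omega), min_eq_left (by omega)]
          · rw [Function.update_of_ne hl, Function.update_of_ne hl]
        rw [h7]
        exact Finset.mem_of_mem_filter _ h6
  have h5 := card_le_exB h3 h4
  omega

/-- pushing the first one inward -/
theorem push_bot {k n : Fin d → ℕ} {P : Finset (Fin d → ℕ)} {i : Fin d} {c : ℕ}
    (hk : k i = c + 2)
    (h1 : ∀ x ∈ P, ∀ y ∈ P, x i = 0 → y i = 0 → x = y) :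
    exB k n P ≤ ∏ l ∈ univ.erase i, n l +
      exB (Function.update k i (c + 1)) (Function.update n i (n i - 1))
        (P.image fun x => Function.update x i (x i - 1)) := by
  classical
  apply exB_le
  intro A hA hav
  set A1 := A.filter fun p => ∃ q ∈ A, (∀ l, l ≠ i → q l = p l) ∧ q i < p i with hA1
  have hcard : A.card = (A.filter fun p => ¬ ∃ q ∈ A, (∀ l, l ≠ i → q l = p l) ∧ q i < p i).card
      + A1.card := by
    rw [hA1, add_comm]
    exact (Finset.card_filter_add_card_filter_not _).symm
  have h2 : (A.filter fun p => ¬ ∃ q ∈ A, (∀ l, l ≠ i → q l = p l) ∧ q i < p i).card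
      ≤ ∏ l ∈ univ.erase i, n l := by
    apply card_extreme_le hA i _ (Finset.filter_subset _ _)
    intro p hp q hq hpq
    rw [Finset.mem_filter] at hp hq
    rcases lt_trichotomy (p i) (q i) with h | h | h
    · exact absurd ⟨p, hp.1, fun l hl => (hpq l hl).symm, h⟩ hq.2
    · exact h
    · exact absurd ⟨q, hq.1, hpq, h⟩ hp.2
  have hpos : ∀ p ∈ A1, 1 ≤ p i := by
    intro p hp
    rw [hA1, Finset.mem_filter] at hp
    obtain ⟨hpA, q, hqA, hq, hlt⟩ := hp
    omega
  set A2 := A1.image fun p => Function.update p i (p i - 1) with hA2
  have hcard2 : A2.card = A1.card := by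
    rw [hA2]
    apply Finset.card_image_of_injOn
    intro p hp q hq hpq
    simp only at hpq
    have hp1 := hpos p (Finset.mem_coe.1 hp)
    have hq1 := hpos q (Finset.mem_coe.1 hq)
    funext l
    have := congrFun hpq l
    rcases eq_or_ne l i with rfl | hl
    · rw [Function.update_self, Function.update_self] at this
      omega
    · rwa [Function.update_of_ne hl, Function.update_of_ne hl] at this
  have h3 : A2 ⊆ box (Function.update n i (n i - 1)) := by
    intro p' hp'
    rw [hA2, Finset.mem_image] at hp'
    obtain ⟨p, hp, rfl⟩ := hp'
    have hp1 := hpos p hp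
    have hpA : p ∈ A := Finset.mem_of_mem_filter _ hp
    rw [mem_box]
    intro l
    have := mem_box.1 (hA hpA) l
    rcases eq_or_ne l i with rfl | hl
    · rw [Function.update_self, Function.update_self]
      omega
    · rw [Function.update_of_ne hl, Function.update_of_ne hl]
      exact this
  have h4 : ¬ Cont (Function.update k i (c + 1)) (Function.update n i (n i - 1))
      (P.image fun x => Function.update x i (x i - 1)) A2 := by
    rintro ⟨φ, hφ, hφn, hφA⟩
    apply hav
    have hni : φ i (c + 1) ≤ n i - 1 := by
      have := hφn i
      rwa [Function.update_self, Function.update_self] at this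
    have key : ∀ x ∈ P, (fun l => if l = i then φ i (x i - 1) + 1 else φ l (x l)) ∈ A1 := by
      intro x hx
      have h5 := hφA _ (Finset.mem_image_of_mem _ hx)
      rw [hA2, Finset.mem_image] at h5
      obtain ⟨p, hp, hpe⟩ := h5
      have hp1 := hpos p hp
      have h6 : (fun l => if l = i then φ i (x i - 1) + 1 else φ l (x l)) = p := by
        funext l
        have := congrFun hpe l
        rcases eq_or_ne l i with rfl | hl
        · rw [Function.update_self, Function.update_self] at this
          rw [if_pos rfl]
          omega
        · rw [Function.update_of_ne hl, Function.update_of_ne hl] at this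
          rw [if_neg hl]
          exact this.symm
      rw [h6]
      exact hp
    have hr : ∃ r, r < φ i 0 + 1 ∧ ∀ x ∈ P, x i = 0 →
        (fun l => if l = i then r else φ l (x l)) ∈ A := by
      by_cases hz : ∃ z ∈ P, z i = 0
      · obtain ⟨z, hz, hzi⟩ := hz
        have h5 := key z hz
        rw [hA1, Finset.mem_filter] at h5
        obtain ⟨-, q, hqA, hq, hlt⟩ := h5
        refine ⟨q i, ?_, ?_⟩
        · simpa [hzi] using hlt
        · intro x hx hxi
          obtain rfl := h1 x hx z hz hxi hzi
          have h7 : (fun l => if l = i then q i else φ l (x l)) = q := by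
            funext l
            rcases eq_or_ne l i with rfl | hl
            · simp
            · rw [if_neg hl, hq l hl]
              change φ l (x l) = if l = i then φ i (x i - 1) + 1 else φ l (x l)
              rw [if_neg hl]
          rw [h7]
          exact hqA
      · exact ⟨0, Nat.succ_pos _, fun x hx hxi => absurd ⟨x, hx, hxi⟩ hz⟩
    obtain ⟨r, hr1, hr3⟩ := hr
    set ψ : ℕ → ℕ := fun m => if m = 0 then r else φ i (m - 1) + 1 with hψ
    have hψm : StrictMono ψ := by
      apply strictMono_nat_of_lt_succ
      intro m
      rcases Nat.eq_zero_or_pos m with h | h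
      · subst h
        simp only [hψ]
        simpa using hr1
      · simp only [hψ]
        rw [if_neg (by omega), if_neg (by omega)]
        have := hφ i (show m - 1 < m + 1 - 1 by omega)
        omega
    refine ⟨Function.update φ i ψ, ?_, ?_, ?_⟩
    · intro l
      rcases eq_or_ne l i with rfl | hl
      · rw [Function.update_self]
        exact hψm
      · rw [Function.update_of_ne hl]
        exact hφ l
    · intro l
      rcases eq_or_ne l i with rfl | hl
      · rw [Function.update_self, hk]
        simp only [hψ]
        rw [if_neg (by omega)]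
        have h8 : c + 2 - 1 = c + 1 := by omega
        rw [h8]
        have := le_strictMono (hφ l) (c + 1)
        omega
      · have := hφn l
        rw [Function.update_of_ne hl, Function.update_of_ne hl] at this
        rw [Function.update_of_ne hl]
        exact this
    · intro x hx
      by_cases h5 : x i = 0
      · have h6 := hr3 x hx h5
        have h7 : (fun l => Function.update φ i ψ l (x l)) = fun l => if l = i then r else φ l (x l) := by
          funext l
          rcases eq_or_ne l i with rfl | hl
          · rw [Function.update_self, if_pos rfl, h5]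
            simp [hψ]
          · rw [Function.update_of_ne hl, if_neg hl]
        rw [h7]
        exact h6
      · have h6 := Finset.mem_of_mem_filter _ (key x hx)
        have h7 : (fun l => Function.update φ i ψ l (x l)) =
            fun l => if l = i then φ i (x i - 1) + 1 else φ l (x l) := by
          funext l
          rcases eq_or_ne l i with rfl | hl
          · rw [Function.update_self, if_pos rfl]
            simp only [hψ]
            rw [if_neg h5]
          · rw [Function.update_of_ne hl, if_neg hl]
        rw [h7]
        exact h6
  have h5 := card_le_exB h3 h4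
  omega

end Pool.Agent.MatPush
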