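import Pool.Agent.MatPush.Link

/-!
# Limits
-/

set_option autoImplicit false

namespace Pool.Agent.MatPush

open Finset Filter Topology Pool.Agent.MatLim

variable {d : ℕ}

theorem div_eq_ofReal (a n e : ℕ) (hn : 1 ≤ n) :
    (a : ENNReal) / (n : ENNReal) ^ e = ENNReal.ofReal ((a : ℝ) / (n : ℝ) ^ e) := by
  have hn' : (0 : ℝ) < (n : ℝ) ^ e := by positivity
  rw [ENNReal.ofReal_div_of_pos hn', ENNReal.ofReal_natCast, ENNReal.ofReal_pow (by positivity),
    ENNReal.ofReal_natCast]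

/-- `(n^d - ∏ (n - g_l)) / n^(d-1) → ∑ g_l` -/
theorem walls_lim (g : Fin d → ℕ) :
    Tendsto (fun n : ℕ => (((n : ℝ) ^ d - ∏ l, ((n : ℝ) - g l)) / (n : ℝ) ^ (d - 1)))
      atTop (𝓝 (∑ l, (g l : ℝ))) := by
  rcases Nat.eq_zero_or_pos d with rfl | hd
  · simp
  have h1 : HasDerivAt (fun x : ℝ => ∏ l, (1 - (g l : ℝ) * x)) (-∑ l, (g l : ℝ)) 0 := by
    have h2 : ∀ l ∈ (univ : Finset (Fin d)),
        HasDerivAt (fun x : ℝ => 1 - (g l : ℝ) * x) (-(g l : ℝ)) 0 := by
      intro l _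
      have h3 := ((hasDerivAt_id (0 : ℝ)).const_mul (g l : ℝ)).const_sub 1
      simpa using h3
    have h4 := HasDerivAt.fun_finsetProd h2
    have h5 : (∑ i ∈ (univ : Finset (Fin d)), (∏ j ∈ univ.erase i, (1 - (g j : ℝ) * 0)) •
        (-(g i : ℝ))) = -∑ l, (g l : ℝ) := by
      rw [← Finset.sum_neg_distrib]
      refine Finset.sum_congr rfl fun i _ => ?_
      simp
    rw [h5] at h4
    exact h4
  have h6 := hasDerivAt_iff_tendsto_slope_zero.1 h1
  have h7 : Tendsto (fun n : ℕ => ((n : ℝ))⁻¹) atTop (𝓝[≠] 0) := by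
    rw [tendsto_nhdsWithin_iff]
    refine ⟨tendsto_inv_atTop_nhds_zero_nat, ?_⟩
    filter_upwards [eventually_ge_atTop 1] with n hn
    have : (0 : ℝ) < (n : ℝ) := by exact_mod_cast hn
    exact (inv_pos.2 this).ne'
  have h8 := (h6.comp h7).neg
  rw [neg_neg] at h8
  refine h8.congr' ?_
  filter_upwards [eventually_ge_atTop 1] with n hn
  have hn0 : (0 : ℝ) < (n : ℝ) := by exact_mod_cast hn
  have e1 : ∏ l, ((n : ℝ) - g l) = (n : ℝ) ^ d * ∏ l, (1 - (g l : ℝ) * (n : ℝ)⁻¹) := by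
    have e2 : (n : ℝ) ^ d = ∏ _l : Fin d, (n : ℝ) := by simp
    rw [e2, ← Finset.prod_mul_distrib]
    refine Finset.prod_congr rfl fun l _ => ?_
    field_simp
  have e3 : (n : ℝ) ^ d = (n : ℝ) ^ (d - 1) * n := by
    rw [← pow_succ]
    congr 1
    omega
  simp only [Function.comp, zero_add, mul_zero, sub_zero, Finset.prod_const_one, smul_eq_mul,
    inv_inv]
  rw [e1, e3]
  field_simp
  ring

/-- the walls do not change convergence -/
theorem lim_shift (g : Fin d → ℕ) (e h : ℕ → ℕ)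
    (hyp : ∀ n, e n + ∏ l, (n - g l) = n ^ d + h n) (L : ENNReal) :
    Tendsto (fun n : ℕ => (h n : ENNReal) / (n : ENNReal) ^ (d - 1)) atTop (𝓝 L) ↔
      Tendsto (fun n : ℕ => (e n : ENNReal) / (n : ENNReal) ^ (d - 1)) atTop
        (𝓝 (L + ((∑ l, g l : ℕ) : ENNReal))) := by
  set U : ℕ → ENNReal := fun n =>
    ENNReal.ofReal (((n : ℝ) ^ d - ∏ l, ((n : ℝ) - g l)) / (n : ℝ) ^ (d - 1)) with hU
  have hUlim : Tendsto U atTop (𝓝 ((∑ l, g l : ℕ) : ENNReal)) := by
    have h1 := (ENNReal.continuous_ofReal.tendsto _).comp (walls_lim g)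
    have h2 : ENNReal.ofReal (∑ l, (g l : ℝ)) = ((∑ l, g l : ℕ) : ENNReal) := by
      rw [← Nat.cast_sum, ENNReal.ofReal_natCast]
    rw [h2] at h1
    exact h1
  have hsum : ∀ᶠ n in atTop, (e n : ENNReal) / (n : ENNReal) ^ (d - 1) =
      (h n : ENNReal) / (n : ENNReal) ^ (d - 1) + U n := by
    filter_upwards [eventually_ge_atTop (∑ l, g l + 1)] with n hn
    have hn1 : 1 ≤ n := by omega
    have hg : ∀ l, g l ≤ n := fun l => by
      have := Finset.single_le_sum (f := g) (fun i _ => Nat.zero_le _) (Finset.mem_univ l)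
      omega
    have hn0 : (0 : ℝ) < (n : ℝ) ^ (d - 1) := by positivity
    have hprod : ((∏ l, (n - g l) : ℕ) : ℝ) = ∏ l, ((n : ℝ) - g l) := by
      rw [Nat.cast_prod]
      exact Finset.prod_congr rfl fun l _ => Nat.cast_sub (hg l)
    have h1 : (e n : ℝ) = h n + ((n : ℝ) ^ d - ∏ l, ((n : ℝ) - g l)) := by
      have := congrArg (Nat.cast : ℕ → ℝ) (hyp n)
      rw [Nat.cast_add, Nat.cast_add, hprod, Nat.cast_pow] at this
      linarith
    have h2 : 0 ≤ (n : ℝ) ^ d - ∏ l, ((n : ℝ) - g l) := by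
      have h3 : ∏ l, ((n : ℝ) - g l) ≤ ∏ _l : Fin d, (n : ℝ) := by
        apply Finset.prod_le_prod
        · intro l _
          have : ((g l : ℕ) : ℝ) ≤ n := by exact_mod_cast hg l
          linarith
        · intro l _
          have : (0 : ℝ) ≤ g l := Nat.cast_nonneg _
          linarith
      rw [Finset.prod_const, Finset.card_univ, Fintype.card_fin] at h3
      linarith
    rw [div_eq_ofReal _ _ _ hn1, div_eq_ofReal _ _ _ hn1, hU,
      ← ENNReal.ofReal_add (by positivity) (by positivity), h1, add_div]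
  constructor
  · intro hL
    refine (hL.add hUlim).congr' ?_
    filter_upwards [hsum] with n hn
    exact hn.symm
  · intro hL
    have h1 := ENNReal.Tendsto.sub hL hUlim (Or.inr (ENNReal.natCast_ne_top _))
    rw [ENNReal.add_sub_cancel_right (ENNReal.natCast_ne_top _)] at h1
    refine h1.congr' ?_
    filter_upwards [hsum] with n hn
    rw [hn, ENNReal.add_sub_cancel_right]
    exact ENNReal.ofReal_ne_top

theorem ratio_one (G e : ℕ) :
    Tendsto (fun n : ℕ => ENNReal.ofReal ((n : ℝ) ^ e / ((n + G : ℕ) : ℝ) ^ e)) atTop (𝓝 1) ∧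
    Tendsto (fun n : ℕ => ENNReal.ofReal (((n + G : ℕ) : ℝ) ^ e / (n : ℝ) ^ e)) atTop (𝓝 1) := by
  have h0 : Tendsto (fun n : ℕ => (((n + G : ℕ) : ℝ) / (n : ℝ))) atTop (𝓝 1) := by
    have h1 : Tendsto (fun n : ℕ => 1 + (G : ℝ) * ((n : ℝ))⁻¹) atTop (𝓝 (1 + (G : ℝ) * 0)) :=
      (tendsto_inv_atTop_nhds_zero_nat.const_mul _).const_add _
    rw [mul_zero, add_zero] at h1
    refine h1.congr' ?_
    filter_upwards [eventually_ge_atTop 1] with n hn
    have : (0 : ℝ) < (n : ℝ) := by exact_mod_cast hn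
    push_cast
    field_simp
  have h2 : Tendsto (fun n : ℕ => (((n + G : ℕ) : ℝ) ^ e / (n : ℝ) ^ e)) atTop (𝓝 1) := by
    have h3 := h0.pow e
    rw [one_pow] at h3
    refine h3.congr fun n => ?_
    rw [div_pow]
  have h4 : Tendsto (fun n : ℕ => ((n : ℝ) ^ e / ((n + G : ℕ) : ℝ) ^ e)) atTop (𝓝 1) := by
    have h5 := h2.inv₀ one_ne_zero
    rw [inv_one] at h5
    refine h5.congr fun n => ?_
    rw [inv_div]
  constructor
  · have h6 := (ENNReal.continuous_ofReal.tendsto 1).comp h4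
    rwa [ENNReal.ofReal_one] at h6
  · have h6 := (ENNReal.continuous_ofReal.tendsto 1).comp h2
    rwa [ENNReal.ofReal_one] at h6

/-- two functions which interlace have the same limits -/
theorem lim_sandwich (F h : ℕ → ℕ) (G e : ℕ) (h1 : ∀ n, h n ≤ F n) (h2 : ∀ n, F n ≤ h (n + G))
    (L : ENNReal) :
    Tendsto (fun n : ℕ => (F n : ENNReal) / (n : ENNReal) ^ e) atTop (𝓝 L) ↔
      Tendsto (fun n : ℕ => (h n : ENNReal) / (n : ENNReal) ^ e) atTop (𝓝 L) := by
  obtain ⟨hw, hv⟩ := ratio_one G e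
  constructor
  · intro hL
    rw [← tendsto_add_atTop_iff_nat G]
    have hup : Tendsto (fun n : ℕ => (F (n + G) : ENNReal) / ((n + G : ℕ) : ENNReal) ^ e) atTop
        (𝓝 L) := (tendsto_add_atTop_iff_nat G).2 hL
    have hlow := ENNReal.Tendsto.mul hL (Or.inr ENNReal.one_ne_top) hw (Or.inl one_ne_zero)
    rw [mul_one] at hlow
    refine tendsto_of_tendsto_of_tendsto_of_le_of_le' hlow hup ?_ ?_
    · filter_upwards [eventually_ge_atTop 1] with n hn
      have hn0 : (0 : ℝ) < (n : ℝ) ^ e := by positivity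
      rw [div_eq_ofReal _ _ _ hn, ← ENNReal.ofReal_mul (by positivity),
        div_eq_ofReal _ _ _ (by omega)]
      apply ENNReal.ofReal_le_ofReal
      have h3 : (F n : ℝ) / (n : ℝ) ^ e * ((n : ℝ) ^ e / ((n + G : ℕ) : ℝ) ^ e) =
          (F n : ℝ) / ((n + G : ℕ) : ℝ) ^ e := by
        field_simp
      rw [h3]
      apply div_le_div_of_nonneg_right _ (by positivity)
      exact_mod_cast h2 n
    · filter_upwards with n
      exact ENNReal.div_le_div_right (by exact_mod_cast h1 (n + G)) _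
  · intro hL
    have hup0 : Tendsto (fun n : ℕ => (h (n + G) : ENNReal) / ((n + G : ℕ) : ENNReal) ^ e) atTop
        (𝓝 L) := (tendsto_add_atTop_iff_nat G).2 hL
    have hup := ENNReal.Tendsto.mul hup0 (Or.inr ENNReal.one_ne_top) hv (Or.inl one_ne_zero)
    rw [mul_one] at hup
    refine tendsto_of_tendsto_of_tendsto_of_le_of_le' hL hup ?_ ?_
    · filter_upwards with n
      exact ENNReal.div_le_div_right (by exact_mod_cast h1 n) _
    · filter_upwards [eventually_ge_atTop 1] with n hn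
      have hn0 : (0 : ℝ) < (n : ℝ) ^ e := by positivity
      have hnG : (0 : ℝ) < ((n + G : ℕ) : ℝ) ^ e := by positivity
      rw [div_eq_ofReal _ _ _ hn, div_eq_ofReal _ _ _ (show 1 ≤ n + G by omega),
        ← ENNReal.ofReal_mul (by positivity)]
      apply ENNReal.ofReal_le_ofReal
      have h3 : (h (n + G) : ℝ) / ((n + G : ℕ) : ℝ) ^ e * (((n + G : ℕ) : ℝ) ^ e / (n : ℝ) ^ e) =
          (h (n + G) : ℝ) / (n : ℝ) ^ e := by
        field_simp
      rw [h3]
      apply div_le_div_of_nonneg_right _ (by positivity)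
      exact_mod_cast h2 n

end Pool.Agent.MatPush
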