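import Pool.Agent.MatPush.Noncr

/-!
# The link with `Pool.Agent.MatLim.ex`, projections and limits
-/

set_option autoImplicit false

namespace Pool.Agent.MatPush

open Finset Filter Topology Pool.Agent.MatLim

variable {d : ℕ} {k : Fin d → ℕ}

/-- the positions of the ones of `P` as vectors of natural numbers -/
def pos (P : Finset ((i : Fin d) → Fin (k i))) : Finset (Fin d → ℕ) :=
  P.image fun x i => (x i : ℕ)

theorem pos_box (P : Finset ((i : Fin d) → Fin (k i))) : pos P ⊆ box k := by
  intro y hy
  obtain ⟨x, -, rfl⟩ := Finset.mem_image.1 hy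
  exact mem_box.2 fun l => (x l).2

theorem contains_iff {P : Finset ((i : Fin d) → Fin (k i))} {n : ℕ} {A : Finset (Fin d → Fin n)} :
    Contains P A ↔ Cont k (fun _ => n) (pos P) (A.image fun a l => (a l : ℕ)) := by
  constructor
  · rintro ⟨φ, hφ⟩
    refine ⟨fun l m => if h : m < k l then (φ l ⟨m, h⟩ : ℕ) else n + (m - k l), ?_, ?_, ?_⟩
    · intro l
      apply strictMono_nat_of_lt_succ
      intro m
      beta_reduce
      by_cases h1 : m + 1 < k l
      · have h2 : m < k l := by omega
        rw [dif_pos h2, dif_pos h1]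
        exact (φ l).strictMono (show (⟨m, h2⟩ : Fin (k l)) < ⟨m + 1, h1⟩ from Nat.lt_succ_self m)
      · rw [dif_neg h1]
        by_cases h2 : m < k l
        · rw [dif_pos h2]
          have := (φ l ⟨m, h2⟩).2
          omega
        · rw [dif_neg h2]
          omega
    · intro l
      beta_reduce
      rw [dif_neg (lt_irrefl _)]
      omega
    · intro x hx
      obtain ⟨x', hx', rfl⟩ := Finset.mem_image.1 hx
      rw [Finset.mem_image]
      refine ⟨_, hφ x' hx', ?_⟩
      funext l
      beta_reduce
      rw [dif_pos (x' l).2]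
  · rintro ⟨φ, hφ, hφn, hφA⟩
    have hlt : ∀ l (j : Fin (k l)), φ l j < n := fun l j =>
      lt_of_lt_of_le (hφ l j.2) (hφn l)
    refine ⟨fun l => OrderEmbedding.ofStrictMono (fun j => ⟨φ l j, hlt l j⟩) ?_, ?_⟩
    · intro a b hab
      exact hφ l hab
    · intro x hx
      have h1 := hφA _ (Finset.mem_image_of_mem _ hx)
      obtain ⟨a, ha, hae⟩ := Finset.mem_image.1 h1
      have h2 : (fun i => (OrderEmbedding.ofStrictMono
          (fun j : Fin (k i) => (⟨φ i j, hlt i j⟩ : Fin n)) (fun a b hab => hφ i hab)) (x i)) =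
          a := by
        funext l
        apply Fin.ext
        exact (congrFun hae l).symm
      rw [h2]
      exact ha

theorem coe_injective {n : ℕ} :
    Function.Injective (fun (a : Fin d → Fin n) l => (a l : ℕ)) := by
  intro a b h
  funext l
  exact Fin.ext (congrFun h l)

theorem ex_eq (P : Finset ((i : Fin d) → Fin (k i))) (n : ℕ) :
    ex P n = exB k (fun _ => n) (pos P) := by
  classical
  apply le_antisymm
  · rcases ex_eq_zero_or P n with h | ⟨A, hA, hav⟩
    · rw [h]
      exact Nat.zero_le _
    · rw [contains_iff] at hav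
      have h1 := card_le_exB (k := k) (n := fun _ => n) (P := pos P) (A := A.image fun a l => (a l : ℕ))
        (by
          intro y hy
          obtain ⟨a, -, rfl⟩ := Finset.mem_image.1 hy
          exact mem_box.2 fun l => (a l).2) hav
      rwa [Finset.card_image_of_injective _ coe_injective, hA] at h1
  · apply exB_le
    intro A hA hav
    set A' : Finset (Fin d → Fin n) := univ.filter fun a => (fun l => (a l : ℕ)) ∈ A with hA'
    have h1 : (A'.image fun a l => (a l : ℕ)) = A := by
      ext y
      rw [Finset.mem_image]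
      constructor
      · rintro ⟨a, ha, rfl⟩
        exact (Finset.mem_filter.1 ha).2
      · intro hy
        have hyb := mem_box.1 (hA hy)
        exact ⟨fun l => ⟨y l, hyb l⟩, Finset.mem_filter.2 ⟨Finset.mem_univ _, hy⟩, rfl⟩
    have h2 : ¬ Contains P A' := by
      rw [contains_iff, h1]
      exact hav
    have h3 := le_ex h2
    rwa [← Finset.card_image_of_injective A' coe_injective, h1] at h3

theorem pos_nonempty {P : Finset ((i : Fin d) → Fin (k i))} (h : P.Nonempty) : (pos P).Nonempty :=
  h.image _

/-- the extremal function of a spanning pattern is monotone in the box -/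
theorem exB_mono {Q : Finset ((i : Fin d) → Fin (k i))} (hQ : Spanning Q) (hne : Q.Nonempty)
    {m m' : Fin d → ℕ} (h : ∀ l, m l ≤ m' l) : exB k m (pos Q) ≤ exB k m' (pos Q) := by
  apply exB_le
  intro A hA hav
  apply card_le_exB (hA.trans fun x hx => mem_box.2 fun l => (mem_box.1 hx l).trans_le (h l))
  rintro ⟨φ, hφ, hφn, hφA⟩
  apply hav
  obtain ⟨z, hz⟩ := hne
  have hk : ∀ l, 0 < k l := fun l => Nat.pos_of_ne_zero fun h0 => by
    have := (z l).2
    omega
  have hlast : ∀ l, φ l (k l - 1) < m l := by
    intro l
    obtain ⟨-, y, hy, hjy⟩ := hQ l ⟨k l - 1, Nat.sub_lt (hk l) Nat.one_pos⟩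
    have h1 := hφA _ (Finset.mem_image_of_mem _ hy)
    have h2 := mem_box.1 (hA h1) l
    have h3 : φ l (k l - 1) ≤ φ l (y l) := (hφ l).monotone hjy
    exact h3.trans_lt h2
  refine ⟨fun l j => if j < k l then φ l j else m l + (j - k l), ?_, ?_, ?_⟩
  · intro l
    apply strictMono_nat_of_lt_succ
    intro j
    have e1 := hφ l (Nat.lt_add_one j)
    have e2 := hlast l
    beta_reduce
    split_ifs with h1 h2
    · exact e1
    · have h3 : j = k l - 1 := by omega
      rw [h3]
      omega
    · omega
    · omega
  · intro l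
    beta_reduce
    rw [if_neg (lt_irrefl _)]
    omega
  · intro x hx
    have hxb := mem_box.1 (pos_box Q hx)
    have h1 : (fun l => if x l < k l then φ l (x l) else m l + (x l - k l)) = fun l => φ l (x l) := by
      funext l
      rw [if_pos (hxb l)]
    have h2 := hφA x hx
    rw [← h1] at h2
    exact h2

/-- projections -/
theorem proj_le {e : ℕ} {r : Fin e → ℕ} (ι : Fin e ↪ Fin d) (R : Finset ((i : Fin e) → Fin (r i)))
    (P : Finset ((i : Fin d) → Fin (k i))) (α : (i : Fin e) → Fin (r i) ↪o Fin (k (ι i)))
    (hα : ∀ y ∈ R, ∃ x ∈ P, ∀ i, x (ι i) = α i (y i)) (n : ℕ) :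
    ex R n * n ^ (d - e) ≤ ex P n := by
  classical
  rcases ex_eq_zero_or R n with h | ⟨B, hB, hav⟩
  · rw [h, zero_mul]
    exact Nat.zero_le _
  · set A : Finset (Fin d → Fin n) := univ.filter fun x => (fun i => x (ι i)) ∈ B with hA
    have h1 : ¬ Contains P A := by
      rintro ⟨φ, hφ⟩
      apply hav
      refine ⟨fun i => (α i).trans (φ (ι i)), fun y hy => ?_⟩
      obtain ⟨x, hx, hxy⟩ := hα y hy
      have h2 := (Finset.mem_filter.1 (hφ x hx)).2
      have h3 : (fun i => ((α i).trans (φ (ι i))) (y i)) = fun i => φ (ι i) (x (ι i)) := by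
        funext i
        rw [hxy i]
        rfl
      rw [h3]
      exact h2
    refine le_trans ?_ (le_ex h1)
    rw [← hB]
    have hc : Fintype.card {l : Fin d // l ∉ Set.range ι} = d - e := by
      rw [Fintype.card_subtype_compl, Fintype.card_fin]
      congr 1
      rw [show Fintype.card {x : Fin d // x ∈ Set.range ι} = Fintype.card (Set.range ι) from rfl,
        Set.card_range_of_injective ι.injective, Fintype.card_fin]
    have h2 : B.card * n ^ (d - e) =
        (B ×ˢ (univ : Finset ({l : Fin d // l ∉ Set.range ι} → Fin n))).card := by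
      rw [Finset.card_product, Finset.card_univ, Fintype.card_fun, hc, Fintype.card_fin]
    rw [h2]
    apply Finset.card_le_card_of_injOn (fun t l =>
      if h : l ∈ Set.range ι then t.1 h.choose else t.2 ⟨l, h⟩)
    · intro t ht
      have ht' := (Finset.mem_product.1 (Finset.mem_coe.1 ht)).1
      rw [Finset.mem_coe, hA, Finset.mem_filter]
      refine ⟨Finset.mem_univ _, ?_⟩
      have h3 : (fun i => if h : ι i ∈ Set.range ι then t.1 h.choose else t.2 ⟨ι i, h⟩) = t.1 := by
        funext i
        have h4 : ι i ∈ Set.range ι := ⟨i, rfl⟩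
        rw [dif_pos h4]
        exact congrArg t.1 (ι.injective h4.choose_spec)
      rw [h3]
      exact ht'
    · intro t _ t' _ htt
      simp only at htt
      apply Prod.ext
      · funext i
        have h5 := congrFun htt (ι i)
        have h4 : ι i ∈ Set.range ι := ⟨i, rfl⟩
        rw [dif_pos h4, dif_pos h4, ι.injective h4.choose_spec] at h5
        exact h5
      · funext l
        have h5 := congrFun htt l.1
        rw [dif_neg l.2, dif_neg l.2] at h5
        exact h5

end Pool.Agent.MatPush
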