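import Pool.Agent.MatPush.Lim

/-!
# The full `2 × 2` pattern and the main statements
-/

set_option autoImplicit false

namespace Pool.Agent.MatPush

open Finset Filter Topology Pool.Agent.MatLim

/-- the full `2 × 2` pattern -/
def R22 : Finset ((i : Fin 2) → Fin ((fun _ => 2 : Fin 2 → ℕ) i)) := univ

/-- the incidence array of points and lines -/
theorem ex_R22 (p n : ℕ) (hp : p.Prime) (hn : p ^ 2 ≤ n) : p ^ 3 ≤ ex R22 n := by
  classical
  have : Fact p.Prime := ⟨hp⟩
  have hp0 : 0 < p := hp.pos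
  set A : Finset (Fin 2 → Fin n) := univ.filter fun x =>
    (x 0 : ℕ) < p ^ 2 ∧ (x 1 : ℕ) < p ^ 2 ∧
      ((((x 0 : ℕ) % p : ℕ) : ZMod p) = (((x 1 : ℕ) / p : ℕ) : ZMod p) * (((x 0 : ℕ) / p : ℕ) : ZMod p)
        + (((x 1 : ℕ) % p : ℕ) : ZMod p)) with hA
  have hdiv : ∀ a : ℕ, a < p ^ 2 → a / p < p := fun a ha => by
    rw [Nat.div_lt_iff_lt_mul hp0, ← pow_two]
    exact ha
  have hcast : ∀ a b : ℕ, a < p → b < p → ((a : ℕ) : ZMod p) = b → a = b := by
    intro a b ha hb hab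
    rw [ZMod.natCast_eq_natCast_iff'] at hab
    rwa [Nat.mod_eq_of_lt ha, Nat.mod_eq_of_lt hb] at hab
  have hav : ¬ Contains R22 A := by
    rintro ⟨φ, hφ⟩
    have hmem : ∀ a b : Fin 2, (fun i : Fin 2 => φ i ((![a, b] : Fin 2 → Fin 2) i)) ∈ A :=
      fun a b => hφ (![a, b] : Fin 2 → Fin 2) (Finset.mem_univ _)
    set u : Fin 2 → ℕ := fun a => (φ 0 a : ℕ) with hu
    set v : Fin 2 → ℕ := fun a => (φ 1 a : ℕ) with hv
    have key : ∀ a b : Fin 2, u a < p ^ 2 ∧ v b < p ^ 2 ∧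
        (((u a % p : ℕ) : ZMod p) = ((v b / p : ℕ) : ZMod p) * ((u a / p : ℕ) : ZMod p)
          + ((v b % p : ℕ) : ZMod p)) := by
      intro a b
      have := (Finset.mem_filter.1 (hmem a b)).2
      simpa [hu, hv] using this
    have hu01 : u 0 < u 1 := (φ 0).strictMono (show (0 : Fin 2) < 1 by decide)
    have hv01 : v 0 < v 1 := (φ 1).strictMono (show (0 : Fin 2) < 1 by decide)
    obtain ⟨hu0, hv0, e00⟩ := key 0 0
    obtain ⟨-, hv1, e01⟩ := key 0 1
    obtain ⟨hu1, -, e10⟩ := key 1 0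
    obtain ⟨-, -, e11⟩ := key 1 1
    have h1 : (((v 0 / p : ℕ) : ZMod p) - ((v 1 / p : ℕ) : ZMod p)) *
        (((u 0 / p : ℕ) : ZMod p) - ((u 1 / p : ℕ) : ZMod p)) = 0 := by
      linear_combination e01 - e00 + e10 - e11
    rcases mul_eq_zero.1 h1 with h2 | h2
    · have h3 := hcast _ _ (hdiv _ hv0) (hdiv _ hv1) (sub_eq_zero.1 h2)
      have h4 : ((v 0 % p : ℕ) : ZMod p) = ((v 1 % p : ℕ) : ZMod p) := by
        rw [h3] at e00
        linear_combination e01 - e00
      have h5 := hcast _ _ (Nat.mod_lt _ hp0) (Nat.mod_lt _ hp0) h4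
      have h6 := Nat.div_add_mod (v 0) p
      have h7 := Nat.div_add_mod (v 1) p
      rw [h3, h5] at h6
      omega
    · have h3 := hcast _ _ (hdiv _ hu0) (hdiv _ hu1) (sub_eq_zero.1 h2)
      have h4 : ((u 0 % p : ℕ) : ZMod p) = ((u 1 % p : ℕ) : ZMod p) := by
        rw [e00, e10, h3]
      have h5 := hcast _ _ (Nat.mod_lt _ hp0) (Nat.mod_lt _ hp0) h4
      have h6 := Nat.div_add_mod (u 0) p
      have h7 := Nat.div_add_mod (u 1) p
      rw [h3, h5] at h6
      omega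
  refine le_trans ?_ (le_ex hav)
  -- the array has at least `p³` ones
  set c : ℕ → ℕ → ℕ := fun u m =>
    (((u % p : ℕ) : ZMod p) - ((m : ℕ) : ZMod p) * ((u / p : ℕ) : ZMod p)).val with hc
  have hcp : ∀ u m, c u m < p := fun u m => ZMod.val_lt _
  have hvlt : ∀ u m, m < p → m * p + c u m < p ^ 2 := by
    intro u m hm
    have := hcp u m
    have h2 : (m + 1) * p ≤ p * p := Nat.mul_le_mul_right p hm
    rw [pow_two]
    nlinarith
  have hcard : p ^ 3 = ((Finset.range (p ^ 2)) ×ˢ (Finset.range p)).card := by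
    rw [Finset.card_product, Finset.card_range, Finset.card_range]
    ring
  rw [hcard]
  have hnn : 0 < n := lt_of_lt_of_le (by positivity) hn
  apply Finset.card_le_card_of_injOn (fun t : ℕ × ℕ =>
    (![⟨t.1 % n, Nat.mod_lt _ hnn⟩, ⟨(t.2 * p + c t.1 t.2) % n, Nat.mod_lt _ hnn⟩] : Fin 2 → Fin n))
  · rintro ⟨a, m⟩ ht
    rw [Finset.mem_coe, Finset.mem_product, Finset.mem_range, Finset.mem_range] at ht
    simp only at ht
    have h1 : a % n = a := Nat.mod_eq_of_lt (lt_of_lt_of_le ht.1 hn)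
    have h2 : (m * p + c a m) % n = m * p + c a m :=
      Nat.mod_eq_of_lt (lt_of_lt_of_le (hvlt a m ht.2) hn)
    rw [Finset.mem_coe, hA, Finset.mem_filter]
    refine ⟨Finset.mem_univ _, ?_⟩
    simp only [Matrix.cons_val_zero, Matrix.cons_val_one]
    rw [h1, h2]
    refine ⟨ht.1, hvlt a m ht.2, ?_⟩
    have h3 : (m * p + c a m) / p = m := by
      rw [mul_comm, Nat.mul_add_div hp0, Nat.div_eq_of_lt (hcp a m), add_zero]
    have h4 : (m * p + c a m) % p = c a m := by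
      rw [mul_comm, Nat.mul_add_mod, Nat.mod_eq_of_lt (hcp a m)]
    rw [h3, h4]
    simp only [hc]
    rw [ZMod.natCast_zmod_val]
    ring
  · rintro ⟨a, m⟩ ht ⟨a', m'⟩ ht' htt
    rw [Finset.mem_coe, Finset.mem_product, Finset.mem_range, Finset.mem_range] at ht ht'
    simp only at ht ht' htt
    have e0 := congrArg Fin.val (congrFun htt 0)
    have e1 := congrArg Fin.val (congrFun htt 1)
    simp only [Matrix.cons_val_zero, Matrix.cons_val_one] at e0 e1
    rw [Nat.mod_eq_of_lt (lt_of_lt_of_le ht.1 hn), Nat.mod_eq_of_lt (lt_of_lt_of_le ht'.1 hn)] at e0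
    rw [Nat.mod_eq_of_lt (lt_of_lt_of_le (hvlt a m ht.2) hn),
      Nat.mod_eq_of_lt (lt_of_lt_of_le (hvlt a' m' ht'.2) hn)] at e1
    have h3 : (m * p + c a m) / p = m := by
      rw [mul_comm, Nat.mul_add_div hp0, Nat.div_eq_of_lt (hcp a m), add_zero]
    have h4 : (m' * p + c a' m') / p = m' := by
      rw [mul_comm, Nat.mul_add_div hp0, Nat.div_eq_of_lt (hcp a' m'), add_zero]
    rw [e1, h4] at h3
    rw [e0, h3]

theorem ratio_R22 : Tendsto (ratio R22) atTop (𝓝 ⊤) := by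
  rw [ENNReal.tendsto_nhds_top_iff_nat]
  intro M
  filter_upwards [eventually_ge_atTop ((8 * M + 8) ^ 2)] with n hn
  have hs : 8 * M + 8 ≤ Nat.sqrt n := Nat.le_sqrt'.2 hn
  have hn1 : 1 ≤ n := by nlinarith
  obtain ⟨p, hp, hp1, hp2⟩ := Nat.exists_prime_lt_and_le_two_mul (Nat.sqrt n / 2) (by omega)
  have hpn : p ^ 2 ≤ n := by
    have h1 : p ≤ Nat.sqrt n := by omega
    calc p ^ 2 ≤ Nat.sqrt n ^ 2 := Nat.pow_le_pow_left h1 2
      _ ≤ n := Nat.sqrt_le' n
  have h2p : Nat.sqrt n + 1 ≤ 2 * p := by omega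
  have hnp : n < 4 * p ^ 2 := by
    have h1 : n < (Nat.sqrt n + 1) ^ 2 := Nat.lt_succ_sqrt' n
    have h2 : (Nat.sqrt n + 1) ^ 2 ≤ (2 * p) ^ 2 := Nat.pow_le_pow_left h2p 2
    nlinarith
  have hex := ex_R22 p n hp hpn
  unfold ratio
  rw [div_eq_ofReal _ _ _ hn1]
  have h3 : (M : ENNReal) = ENNReal.ofReal (M : ℝ) := (ENNReal.ofReal_natCast M).symm
  rw [h3]
  apply (ENNReal.ofReal_lt_ofReal_iff_of_nonneg (Nat.cast_nonneg M)).2
  have hn0 : (0 : ℝ) < n := by exact_mod_cast hn1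
  rw [show (2 : ℕ) - 1 = 1 from rfl, pow_one, lt_div_iff₀ hn0]
  have h4 : ((p ^ 3 : ℕ) : ℝ) ≤ ex R22 n := by exact_mod_cast hex
  have h5 : (n : ℝ) < 4 * (p : ℝ) ^ 2 := by exact_mod_cast hnp
  have h6 : (4 * M + 4 : ℝ) ≤ p := by
    have : 4 * M + 4 ≤ p := by omega
    exact_mod_cast this
  have h7 : (0 : ℝ) ≤ (p : ℝ) ^ 2 := by positivity
  have h8 : (0 : ℝ) ≤ M := Nat.cast_nonneg M
  push_cast at h4
  have h9 : (M : ℝ) * n ≤ M * (4 * (p : ℝ) ^ 2) := mul_le_mul_of_nonneg_left h5.le h8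
  have h10 : (0 : ℝ) < (p : ℝ) ^ 2 := by
    have : 0 < p := hp.pos
    positivity
  nlinarith

/-- a pattern with a coordinate projection of infinite ratio has an infinite ratio -/
theorem proj_top {e d : ℕ} {r : Fin e → ℕ} {k : Fin d → ℕ} (he : 1 ≤ e) (ι : Fin e ↪ Fin d)
    (R : Finset ((i : Fin e) → Fin (r i)))
    (P : Finset ((i : Fin d) → Fin (k i))) (α : (i : Fin e) → Fin (r i) ↪o Fin (k (ι i)))
    (hα : ∀ y ∈ R, ∃ x ∈ P, ∀ i, x (ι i) = α i (y i)) (h : Tendsto (ratio R) atTop (𝓝 ⊤)) :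
    Tendsto (ratio P) atTop (𝓝 ⊤) := by
  have hed : e ≤ d := by
    have := Fintype.card_le_of_injective ι ι.injective
    simpa using this
  refine tendsto_of_tendsto_of_tendsto_of_le_of_le' h tendsto_const_nhds ?_
    (Eventually.of_forall fun n => le_top)
  filter_upwards [eventually_ge_atTop 1] with n hn
  have h1 := proj_le ι R P α hα n
  unfold ratio
  rw [div_eq_ofReal _ _ _ hn, div_eq_ofReal _ _ _ hn]
  apply ENNReal.ofReal_le_ofReal
  have hn0 : (0 : ℝ) < n := by exact_mod_cast hn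
  have h2 : (n : ℝ) ^ (d - 1) = (n : ℝ) ^ (e - 1) * (n : ℝ) ^ (d - e) := by
    rw [← pow_add]
    congr 1
    omega
  have h3 : (ex R n : ℝ) * (n : ℝ) ^ (d - e) ≤ ex P n := by exact_mod_cast h1
  rw [h2, ← div_div, div_le_div_iff₀ (by positivity) (by positivity)]
  have h4 : (ex P n : ℝ) / (n : ℝ) ^ (e - 1) * (n : ℝ) ^ (e - 1) = ex P n := by
    field_simp
  rw [h4]
  exact h3

variable {d : ℕ} {k : Fin d → ℕ}

/-- the empty pattern -/
theorem ratio_empty : Tendsto (ratio (∅ : Finset ((i : Fin d) → Fin (k i)))) atTop (𝓝 0) := by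
  refine tendsto_const_nhds.congr' ?_
  filter_upwards [eventually_ge_atTop (∑ l, k l)] with n hn
  have h1 : ex (∅ : Finset ((i : Fin d) → Fin (k i))) n = 0 := by
    rcases ex_eq_zero_or (∅ : Finset ((i : Fin d) → Fin (k i))) n with h | ⟨A, hA, hav⟩
    · exact h
    · exfalso
      apply hav
      refine ⟨fun i => Fin.castLEOrderEmb ?_, fun x hx => absurd hx (Finset.notMem_empty _)⟩
      exact (Finset.single_le_sum (f := k) (fun i _ => Nat.zero_le _) (Finset.mem_univ i)).trans hn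
  unfold ratio
  rw [h1, Nat.cast_zero, ENNReal.zero_div]

/-- the exact value and the limit for a noncrossing pattern -/
theorem noncr_main (P : Finset ((i : Fin d) → Fin (k i))) (hne : P.Nonempty) (hN : Noncr (pos P)) :
    (∀ n, ex P n + ∏ l, (n - (k l - 1)) = n ^ d) ∧
      Tendsto (ratio P) atTop (𝓝 ((∑ l, (k l - 1) : ℕ) : ENNReal)) := by
  have h1 : ∀ n, ex P n + ∏ l, (n - (k l - 1)) = n ^ d := by
    intro n
    have h := hN.exact (pos_nonempty hne) (pos_box P) (fun _ => n)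
    rw [← ex_eq, Finset.prod_const, Finset.card_univ, Fintype.card_fin] at h
    exact h
  refine ⟨h1, ?_⟩
  have h2 := (lim_shift (fun l => k l - 1) (ex P) (fun _ => 0) (fun n => by
    rw [add_zero]
    exact h1 n) 0).1 (by
      refine tendsto_const_nhds.congr fun n => ?_
      simp)
  rw [zero_add] at h2
  exact h2

/-- at most three ones -/
theorem noncr_three (P : Finset (Fin d → ℕ)) (h : P.card ≤ 3) : Noncr P := by
  classical
  rintro i j hij s t ⟨⟨x1, hx1, h11, h12⟩, ⟨x2, hx2, h21, h22⟩, ⟨x3, hx3, h31, h32⟩,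
    ⟨x4, hx4, h41, h42⟩⟩
  have e12 : x1 ≠ x2 := by rintro rfl; omega
  have e13 : x1 ≠ x3 := by rintro rfl; omega
  have e14 : x1 ≠ x4 := by rintro rfl; omega
  have e23 : x2 ≠ x3 := by rintro rfl; omega
  have e24 : x2 ≠ x4 := by rintro rfl; omega
  have e34 : x3 ≠ x4 := by rintro rfl; omega
  have hsub : ({x1, x2, x3, x4} : Finset (Fin d → ℕ)) ⊆ P := by
    intro y hy
    simp only [Finset.mem_insert, Finset.mem_singleton] at hy
    rcases hy with rfl | rfl | rfl | rfl <;> assumption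
  have hc : ({x1, x2, x3, x4} : Finset (Fin d → ℕ)).card = 4 := by
    rw [Finset.card_insert_of_notMem (by simp [e12, e13, e14]),
      Finset.card_insert_of_notMem (by simp [e23, e24]),
      Finset.card_insert_of_notMem (by simp [e34]), Finset.card_singleton]
  have := Finset.card_le_card hsub
  omega

/-- the projection of `P` to two coordinates contains the full `2 × 2` pattern -/
theorem rect_top (P : Finset ((i : Fin d) → Fin (k i))) (i j : Fin d) (hij : i ≠ j)
    (a b : Fin (k i)) (c e : Fin (k j)) (hab : a < b) (hce : c < e)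
    (h1 : ∃ x ∈ P, x i = a ∧ x j = c) (h2 : ∃ x ∈ P, x i = a ∧ x j = e)
    (h3 : ∃ x ∈ P, x i = b ∧ x j = c) (h4 : ∃ x ∈ P, x i = b ∧ x j = e) :
    Tendsto (ratio P) atTop (𝓝 ⊤) := by
  classical
  let ι : Fin 2 ↪ Fin d := ⟨![i, j], by
    intro x y hxy
    fin_cases x <;> fin_cases y <;> simp_all [eq_comm]⟩
  have hm : ∀ {m : ℕ} {u v : Fin m}, u < v → StrictMono (fun x : Fin 2 => if x = 0 then u else v) := by
    intro m u v huv x y hxy
    fin_cases x <;> fin_cases y <;> simp_all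
  let α : (x : Fin 2) → Fin 2 ↪o Fin (k (ι x)) := fun x => match x with
    | 0 => OrderEmbedding.ofStrictMono _ (hm hab)
    | 1 => OrderEmbedding.ofStrictMono _ (hm hce)
  refine proj_top (by norm_num) ι R22 P α ?_ ratio_R22
  intro y _
  have build : ∀ x ∈ P, x i = (if y 0 = 0 then a else b) → x j = (if y 1 = 0 then c else e) →
      ∃ x ∈ P, ∀ z : Fin 2, x (ι z) = α z (y z) := by
    intro x hx e0 e1
    refine ⟨x, hx, fun z => ?_⟩
    fin_cases z
    · exact e0
    · exact e1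
  obtain ⟨x1, hx1, p1, q1⟩ := h1
  obtain ⟨x2, hx2, p2, q2⟩ := h2
  obtain ⟨x3, hx3, p3, q3⟩ := h3
  obtain ⟨x4, hx4, p4, q4⟩ := h4
  by_cases c0 : y 0 = 0 <;> by_cases c1 : y 1 = 0
  · exact build x1 hx1 (by rw [if_pos c0]; exact p1) (by rw [if_pos c1]; exact q1)
  · exact build x2 hx2 (by rw [if_pos c0]; exact p2) (by rw [if_neg c1]; exact q2)
  · exact build x3 hx3 (by rw [if_neg c0]; exact p3) (by rw [if_pos c1]; exact q3)
  · exact build x4 hx4 (by rw [if_neg c0]; exact p4) (by rw [if_neg c1]; exact q4)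

/-- the reduction -/
theorem push_main {k' : Fin d → ℕ} (P : Finset ((i : Fin d) → Fin (k i)))
    (Q : Finset ((i : Fin d) → Fin (k' i))) (hne : P.Nonempty) (h : Push k (pos P) k' (pos Q))
    (hQ : Spanning Q) (t : Fin d → ℕ) (ht : ∀ i, t i + k' i ≤ k i)
    (hPQ : ∀ x ∈ pos Q, (fun i => x i + t i) ∈ pos P) (L : ENNReal) :
    Tendsto (ratio Q) atTop (𝓝 L) ↔
      Tendsto (ratio P) atTop (𝓝 (L + ((∑ i, (k i - k' i) : ℕ) : ENNReal))) := by
  have hQne : Q.Nonempty := by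
    have := h.nonempty (pos_nonempty hne)
    rwa [pos, Finset.image_nonempty] at this
  have h1 : ∀ n, ex P n + ∏ l, (n - (k l - k' l)) =
      n ^ d + exB k' (fun l => n - (k l - k' l)) (pos Q) := by
    intro n
    have h2 := Push.exact h (pos_box P) (pos_nonempty hne) ht hPQ (fun _ => n)
    rw [← ex_eq, Finset.prod_const, Finset.card_univ, Fintype.card_fin] at h2
    exact h2
  have h2 := lim_shift (fun l => k l - k' l) (ex P)
    (fun n => exB k' (fun l => n - (k l - k' l)) (pos Q)) h1 L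
  have h3 := lim_sandwich (ex Q) (fun n => exB k' (fun l => n - (k l - k' l)) (pos Q))
    (∑ l, (k l - k' l)) (d - 1) (fun n => by
      rw [ex_eq]
      exact exB_mono hQ hQne fun l => Nat.sub_le _ _) (fun n => by
      rw [ex_eq]
      apply exB_mono hQ hQne
      intro l
      have := Finset.single_le_sum (f := fun l => k l - k' l) (fun i _ => Nat.zero_le _)
        (Finset.mem_univ l)
      omega) L
  exact h3.trans h2

end Pool.Agent.MatPush
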