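import Pool.Agent.MatPush.Core

/-!
# Walls, the pushing relation and noncrossing patterns
-/

set_option autoImplicit false

namespace Pool.Agent.MatPush

open Finset

variable {d : ℕ}

/-- walls: if `P` contains the translate of `Q` by `t` -/
theorem walls {k k' t : Fin d → ℕ} {P Q : Finset (Fin d → ℕ)} (hQ : Q ⊆ box k')
    (ht : ∀ l, t l + k' l ≤ k l) (hPQ : ∀ x ∈ Q, (fun l => x l + t l) ∈ P) (hne : Q.Nonempty)
    (n : Fin d → ℕ) :
    ∏ l, n l + exB k' (fun l => n l - (k l - k' l)) Q ≤
      exB k n P + ∏ l, (n l - (k l - k' l)) := by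
  classical
  obtain ⟨B, hB, hBav, hBc⟩ := exists_exB (k := k') (n := fun l => n l - (k l - k' l)) hne
  have hinj : Function.Injective (fun x : Fin d → ℕ => fun l => x l + t l) := by
    intro x y h
    funext l
    have := congrFun h l
    simp only at this
    omega
  set cen := (box fun l => n l - (k l - k' l)).image (fun x : Fin d → ℕ => fun l => x l + t l)
    with hcen
  have hcenc : cen.card = ∏ l, (n l - (k l - k' l)) := by
    rw [hcen, Finset.card_image_of_injective _ hinj, card_box]
  have hcenb : cen ⊆ box n := by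
    intro y hy
    rw [hcen, Finset.mem_image] at hy
    obtain ⟨x, hx, rfl⟩ := hy
    rw [mem_box] at hx ⊢
    intro l
    have h1 := hx l
    have h2 := ht l
    omega
  set BI := B.image (fun x : Fin d → ℕ => fun l => x l + t l) with hBI
  have hBIc : BI.card = B.card := by
    rw [hBI, Finset.card_image_of_injective _ hinj]
  have hBIcen : BI ⊆ cen := Finset.image_subset_image hB
  set A := (box n \ cen) ∪ BI with hA
  have hAb : A ⊆ box n :=
    Finset.union_subset Finset.sdiff_subset (hBIcen.trans hcenb)
  have hAc : A.card + ∏ l, (n l - (k l - k' l)) = ∏ l, n l + B.card := by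
    have hdisj : Disjoint (box n \ cen) BI :=
      Finset.disjoint_of_subset_right hBIcen Finset.sdiff_disjoint
    rw [hA, Finset.card_union_of_disjoint hdisj, hBIc]
    have h1 := Finset.card_sdiff_add_card_eq_card hcenb
    rw [card_box, hcenc] at h1
    omega
  have hav : ¬ Cont k n P A := by
    rintro ⟨φ, hφ, hφn, hφA⟩
    apply hBav
    have key : ∀ x ∈ Q, (fun l => φ l (x l + t l) - t l) ∈ B := by
      intro x hx
      have h1 := hφA _ (hPQ x hx)
      have hxk := mem_box.1 (hQ hx)
      have h2 : ∀ l, t l ≤ φ l (x l + t l) := by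
        intro l
        have := le_strictMono (hφ l) (x l + t l)
        omega
      have h3 : ∀ l, φ l (x l + t l) - t l < n l - (k l - k' l) := by
        intro l
        have e1 := hxk l
        have e2 := ht l
        have e3 := strictMono_add (hφ l) (show x l + t l ≤ k l by omega)
        have e4 := hφn l
        have e5 := le_strictMono (hφ l) (x l + t l)
        omega
      have h4 : (fun l => φ l (x l + t l)) ∈ cen := by
        rw [hcen, Finset.mem_image]
        refine ⟨fun l => φ l (x l + t l) - t l, mem_box.2 h3, ?_⟩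
        funext l
        exact Nat.sub_add_cancel (h2 l)
      rw [hA, Finset.mem_union, Finset.mem_sdiff] at h1
      rcases h1 with h1 | h1
      · exact absurd h4 h1.2
      · rw [hBI, Finset.mem_image] at h1
        obtain ⟨b, hb, hbe⟩ := h1
        have h5 : (fun l => φ l (x l + t l) - t l) = b := by
          funext l
          have e1 : b l + t l = φ l (x l + t l) := congrFun hbe l
          omega
        rw [h5]
        exact hb
    refine ⟨fun l m => φ l (m + t l) - t l, ?_, ?_, key⟩
    · intro l a b hab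
      have e1 := hφ l (show a + t l < b + t l by omega)
      have e2 := le_strictMono (hφ l) (a + t l)
      simp only
      omega
    · intro l
      have e2 := ht l
      have e3 := strictMono_add (hφ l) (show k' l + t l ≤ k l by omega)
      have e4 := hφn l
      simp only
      omega
  have h1 := card_le_exB hAb hav
  rw [hBc] at hAc
  omega

/-- `Push k P k' Q`: `Q` (side lengths `k'`) is obtained from `P` (side lengths `k`) by pushing ones
inward: in some direction `i` the last (first) hyperplane contains at most one one, this one is moved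
to the neighbouring hyperplane and the empty hyperplane is deleted; and so on. -/
inductive Push : (Fin d → ℕ) → Finset (Fin d → ℕ) → (Fin d → ℕ) → Finset (Fin d → ℕ) → Prop
  | refl (k : Fin d → ℕ) (P : Finset (Fin d → ℕ)) : Push k P k P
  | top (k k' : Fin d → ℕ) (P Q : Finset (Fin d → ℕ)) (i : Fin d) (c : ℕ) :
      k i = c + 2 → (∀ x ∈ P, ∀ y ∈ P, x i = c + 1 → y i = c + 1 → x = y) →
      Push (Function.update k i (c + 1)) (P.image fun x => Function.update x i (min (x i) c)) k' Q →
      Push k P k' Q
  | bot (k k' : Fin d → ℕ) (P Q : Finset (Fin d → ℕ)) (i : Fin d) (c : ℕ) :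
      k i = c + 2 → (∀ x ∈ P, ∀ y ∈ P, x i = 0 → y i = 0 → x = y) →
      Push (Function.update k i (c + 1)) (P.image fun x => Function.update x i (x i - 1)) k' Q →
      Push k P k' Q

theorem image_top_box {k : Fin d → ℕ} {P : Finset (Fin d → ℕ)} {i : Fin d} {c : ℕ}
    (hP : P ⊆ box k) :
    (P.image fun x => Function.update x i (min (x i) c)) ⊆ box (Function.update k i (c + 1)) := by
  intro y hy
  rw [Finset.mem_image] at hy
  obtain ⟨x, hx, rfl⟩ := hy
  rw [mem_box]
  intro l
  rcases eq_or_ne l i with rfl | hl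
  · rw [Function.update_self, Function.update_self]
    omega
  · rw [Function.update_of_ne hl, Function.update_of_ne hl]
    exact mem_box.1 (hP hx) l

theorem image_bot_box {k : Fin d → ℕ} {P : Finset (Fin d → ℕ)} {i : Fin d} {c : ℕ}
    (hk : k i = c + 2) (hP : P ⊆ box k) :
    (P.image fun x => Function.update x i (x i - 1)) ⊆ box (Function.update k i (c + 1)) := by
  intro y hy
  rw [Finset.mem_image] at hy
  obtain ⟨x, hx, rfl⟩ := hy
  rw [mem_box]
  intro l
  have h1 := mem_box.1 (hP hx) l
  rcases eq_or_ne l i with rfl | hl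
  · rw [Function.update_self, Function.update_self]
    omega
  · rw [Function.update_of_ne hl, Function.update_of_ne hl]
    exact h1

theorem Push.le {k k' : Fin d → ℕ} {P Q : Finset (Fin d → ℕ)} (h : Push k P k' Q) :
    ∀ l, k' l ≤ k l := by
  induction h with
  | refl k P => exact fun l => le_rfl
  | top k k' P Q i c hk h1 _ ih =>
    intro l
    have h2 := ih l
    rcases eq_or_ne l i with rfl | hl
    · rw [Function.update_self] at h2
      omega
    · rwa [Function.update_of_ne hl] at h2
  | bot k k' P Q i c hk h1 _ ih =>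
    intro l
    have h2 := ih l
    rcases eq_or_ne l i with rfl | hl
    · rw [Function.update_self] at h2
      omega
    · rwa [Function.update_of_ne hl] at h2

theorem Push.box {k k' : Fin d → ℕ} {P Q : Finset (Fin d → ℕ)} (h : Push k P k' Q) :
    P ⊆ box k → Q ⊆ box k' := by
  induction h with
  | refl k P => exact fun h => h
  | top k k' P Q i c hk h1 _ ih => exact fun hP => ih (image_top_box hP)
  | bot k k' P Q i c hk h1 _ ih => exact fun hP => ih (image_bot_box hk hP)

theorem Push.nonempty {k k' : Fin d → ℕ} {P Q : Finset (Fin d → ℕ)} (h : Push k P k' Q) :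
    P.Nonempty → Q.Nonempty := by
  induction h with
  | refl k P => exact fun h => h
  | top k k' P Q i c hk h1 _ ih => exact fun hP => ih (hP.image _)
  | bot k k' P Q i c hk h1 _ ih => exact fun hP => ih (hP.image _)

theorem exB_le_card {k n : Fin d → ℕ} {P : Finset (Fin d → ℕ)} : exB k n P ≤ ∏ l, n l := by
  apply exB_le
  intro A hA _
  rw [← card_box]
  exact Finset.card_le_card hA

/-- one step of the upper bound -/
theorem step_up {k k' n : Fin d → ℕ} {E : ℕ} {P' Q : Finset (Fin d → ℕ)} {i : Fin d} {c : ℕ}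
    (hk : k i = c + 2) (hk' : ∀ l, k' l ≤ Function.update k i (c + 1) l)
    (hE0 : E ≤ ∏ l, n l)
    (hE : 1 ≤ n i → E ≤ ∏ l ∈ univ.erase i, n l +
      exB (Function.update k i (c + 1)) (Function.update n i (n i - 1)) P')
    (ih : ∀ n : Fin d → ℕ, exB (Function.update k i (c + 1)) n P' +
      ∏ l, (n l - (Function.update k i (c + 1) l - k' l)) ≤
      ∏ l, n l + exB k' (fun l => n l - (Function.update k i (c + 1) l - k' l)) Q) :
    E + ∏ l, (n l - (k l - k' l)) ≤ ∏ l, n l + exB k' (fun l => n l - (k l - k' l)) Q := by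
  have hki := hk' i
  rw [Function.update_self] at hki
  rcases Nat.eq_zero_or_pos (n i) with h0 | h0
  · have h1 : ∏ l, (n l - (k l - k' l)) = 0 :=
      Finset.prod_eq_zero (Finset.mem_univ i) (by omega)
    rw [h1]
    omega
  · have h1 := hE h0
    have h2 := ih (Function.update n i (n i - 1))
    have h3 : ∀ l, Function.update n i (n i - 1) l - (Function.update k i (c + 1) l - k' l)
        = n l - (k l - k' l) := by
      intro l
      rcases eq_or_ne l i with rfl | hl
      · rw [Function.update_self, Function.update_self]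
        omega
      · rw [Function.update_of_ne hl, Function.update_of_ne hl]
    have h4 : (fun l => Function.update n i (n i - 1) l - (Function.update k i (c + 1) l - k' l))
        = fun l => n l - (k l - k' l) := funext h3
    rw [h4] at h2
    have h5 : ∏ l, n l = ∏ l ∈ univ.erase i, n l + ∏ l, Function.update n i (n i - 1) l := by
      rw [← Finset.mul_prod_erase univ _ (Finset.mem_univ i),
        ← Finset.mul_prod_erase univ (Function.update n i (n i - 1)) (Finset.mem_univ i),
        Function.update_self]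
      have h6 : ∏ l ∈ univ.erase i, Function.update n i (n i - 1) l = ∏ l ∈ univ.erase i, n l :=
        Finset.prod_congr rfl fun l hl => Function.update_of_ne (Finset.ne_of_mem_erase hl) _ _
      rw [h6]
      obtain ⟨m, hm⟩ := Nat.exists_eq_succ_of_ne_zero h0.ne'
      rw [hm]
      simp only [Nat.succ_eq_add_one, Nat.add_sub_cancel]
      ring
    omega

/-- the upper bound along a sequence of pushes -/
theorem Push.up {k k' : Fin d → ℕ} {P Q : Finset (Fin d → ℕ)} (h : Push k P k' Q) :
    P ⊆ Pool.Agent.MatPush.box k → ∀ n : Fin d → ℕ,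
    exB k n P + ∏ l, (n l - (k l - k' l)) ≤ ∏ l, n l + exB k' (fun l => n l - (k l - k' l)) Q := by
  induction h with
  | refl k P =>
    intro _ n
    simp only [Nat.sub_self, Nat.sub_zero]
    exact le_of_eq (add_comm _ _)
  | top k k' P Q i c hk h1 hpush ih =>
    intro hP n
    exact step_up hk hpush.le exB_le_card (fun hn => push_top hk hP h1) (ih (image_top_box hP))
  | bot k k' P Q i c hk h1 hpush ih =>
    intro hP n
    exact step_up hk hpush.le exB_le_card (fun hn => push_bot hk h1) (ih (image_bot_box hk hP))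

/-- the exact reduction -/
theorem Push.exact {k k' t : Fin d → ℕ} {P Q : Finset (Fin d → ℕ)} (h : Push k P k' Q)
    (hP : P ⊆ Pool.Agent.MatPush.box k) (hne : P.Nonempty) (ht : ∀ l, t l + k' l ≤ k l)
    (hPQ : ∀ x ∈ Q, (fun l => x l + t l) ∈ P) (n : Fin d → ℕ) :
    exB k n P + ∏ l, (n l - (k l - k' l)) = ∏ l, n l + exB k' (fun l => n l - (k l - k' l)) Q := by
  apply le_antisymm (h.up hP n)
  exact walls (h.box hP) ht hPQ (h.nonempty hne) n

/-- noncrossing patterns -/
def Noncr (P : Finset (Fin d → ℕ)) : Prop :=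
  ∀ i j : Fin d, i ≠ j → ∀ s t : ℕ,
    ¬ ((∃ x ∈ P, x i < s ∧ x j < t) ∧ (∃ x ∈ P, x i < s ∧ t ≤ x j) ∧
      (∃ x ∈ P, s ≤ x i ∧ x j < t) ∧ (∃ x ∈ P, s ≤ x i ∧ t ≤ x j))

theorem Noncr.image {P : Finset (Fin d → ℕ)} (h : Noncr P) (g : Fin d → ℕ → ℕ)
    (hg : ∀ l, Monotone (g l)) : Noncr (P.image fun x l => g l (x l)) := by
  have key : ∀ (l : Fin d) (s m : ℕ), s ≤ g l m → ∃ s', ∀ a, g l a < s ↔ a < s' := by
    classical
    intro l s m hm
    have hex : ∃ m, s ≤ g l m := ⟨m, hm⟩
    refine ⟨Nat.find hex, fun a => ?_⟩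
    constructor
    · intro ha
      by_contra hc
      have h1 := hg l (not_lt.1 hc)
      have h2 := Nat.find_spec hex
      omega
    · intro ha
      have := Nat.find_min hex ha
      omega
  rintro i j hij s t ⟨⟨x1, hx1, h11, h12⟩, ⟨x2, hx2, h21, h22⟩, ⟨x3, hx3, h31, h32⟩,
    ⟨x4, hx4, h41, h42⟩⟩
  rw [Finset.mem_image] at hx1 hx2 hx3 hx4
  obtain ⟨y1, hy1, rfl⟩ := hx1
  obtain ⟨y2, hy2, rfl⟩ := hx2
  obtain ⟨y3, hy3, rfl⟩ := hx3
  obtain ⟨y4, hy4, rfl⟩ := hx4
  simp only at h11 h12 h21 h22 h31 h32 h41 h42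
  obtain ⟨s', hs'⟩ := key i s _ h31
  obtain ⟨t', ht'⟩ := key j t _ h22
  refine h i j hij s' t' ⟨⟨y1, hy1, (hs' _).1 h11, (ht' _).1 h12⟩,
    ⟨y2, hy2, (hs' _).1 h21, ?_⟩, ⟨y3, hy3, ?_, (ht' _).1 h32⟩, ⟨y4, hy4, ?_, ?_⟩⟩
  · exact not_lt.1 fun hc => absurd ((ht' _).2 hc) (not_lt.2 h22)
  · exact not_lt.1 fun hc => absurd ((hs' _).2 hc) (not_lt.2 h31)
  · exact not_lt.1 fun hc => absurd ((hs' _).2 hc) (not_lt.2 h41)
  · exact not_lt.1 fun hc => absurd ((ht' _).2 hc) (not_lt.2 h42)

theorem Noncr.top {P : Finset (Fin d → ℕ)} (h : Noncr P) (i : Fin d) (c : ℕ) :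
    Noncr (P.image fun x => Function.update x i (min (x i) c)) := by
  have e : (fun x : Fin d → ℕ => Function.update x i (min (x i) c)) =
      fun x l => (if l = i then fun m => min m c else id : ℕ → ℕ) (x l) := by
    funext x l
    rcases eq_or_ne l i with rfl | hl
    · simp
    · simp [hl]
  rw [e]
  apply h.image
  intro l
  by_cases hl : l = i
  · rw [if_pos hl]
    exact fun a b hab => min_le_min_right c hab
  · rw [if_neg hl]
    exact monotone_id

theorem Noncr.bot {P : Finset (Fin d → ℕ)} (h : Noncr P) (i : Fin d) :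
    Noncr (P.image fun x => Function.update x i (x i - 1)) := by
  have e : (fun x : Fin d → ℕ => Function.update x i (x i - 1)) =
      fun x l => (if l = i then fun m => m - 1 else id : ℕ → ℕ) (x l) := by
    funext x l
    rcases eq_or_ne l i with rfl | hl
    · simp
    · simp [hl]
  rw [e]
  apply h.image
  intro l
  by_cases hl : l = i
  · rw [if_pos hl]
    exact fun a b hab => Nat.sub_le_sub_right hab 1
  · rw [if_neg hl]
    exact monotone_id

/-- the end hyperplanes -/
def endH (k : Fin d → ℕ) (P : Finset (Fin d → ℕ)) (b : Bool) (i : Fin d) : Finset (Fin d → ℕ) :=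
  P.filter fun x => x i = if b then k i - 1 else 0

theorem leaf_aux {k : Fin d → ℕ} {P : Finset (Fin d → ℕ)} (hP : P ⊆ box k) (hN : Noncr P)
    (hbig : ∀ i, 2 ≤ k i → ∀ b, ∃ u ∈ endH k P b i, ∃ v ∈ endH k P b i, u ≠ v) :
    ∀ (N : ℕ) (i : Fin d) (b : Bool), 2 ≤ k i → (endH k P b i).card = N → False := by
  classical
  intro N
  induction N using Nat.strong_induction_on with
  | _ N ih =>
    intro i b hi hN'
    obtain ⟨u0, hu0, v0, hv0, hne0⟩ := hbig i hi b
    -- order them
    have horder : ∃ u ∈ endH k P b i, ∃ v ∈ endH k P b i, ∃ j, u j < v j := by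
      by_contra hc
      push Not at hc
      exact hne0 (funext fun j => le_antisymm (hc v0 hv0 u0 hu0 j) (hc u0 hu0 v0 hv0 j))
    obtain ⟨u, hu, v, hv, j, huv⟩ := horder
    obtain ⟨huP, hui⟩ := Finset.mem_filter.1 hu
    obtain ⟨hvP, hvi⟩ := Finset.mem_filter.1 hv
    have hji : i ≠ j := by
      rintro rfl
      omega
    have hvk := mem_box.1 (hP hvP) j
    have hkj : 2 ≤ k j := by omega
    -- a side contained in the end hyperplane
    have hside : (∀ x ∈ P, x j < v j → x ∈ endH k P b i) ∨
        (∀ x ∈ P, v j ≤ x j → x ∈ endH k P b i) := by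
      by_contra hc
      push Not at hc
      obtain ⟨⟨x, hx, hxj, hxn⟩, ⟨y, hy, hyj, hyn⟩⟩ := hc
      have hxb := mem_box.1 (hP hx) i
      have hyb := mem_box.1 (hP hy) i
      have hxi : x i ≠ if b then k i - 1 else 0 := fun h => hxn (Finset.mem_filter.2 ⟨hx, h⟩)
      have hyi : y i ≠ if b then k i - 1 else 0 := fun h => hyn (Finset.mem_filter.2 ⟨hy, h⟩)
      cases b with
      | true =>
        rw [if_pos rfl] at hui hvi hxi hyi
        exact hN i j hji (k i - 1) (v j) ⟨⟨x, hx, by omega, hxj⟩, ⟨y, hy, by omega, hyj⟩,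
          ⟨u, huP, by omega, huv⟩, ⟨v, hvP, by omega, le_rfl⟩⟩
      | false =>
        have e1 : (if false = true then k i - 1 else 0) = 0 := rfl
        rw [e1] at hui hvi hxi hyi
        exact hN i j hji 1 (v j) ⟨⟨u, huP, by omega, huv⟩, ⟨v, hvP, by omega, le_rfl⟩,
          ⟨x, hx, by omega, hxj⟩, ⟨y, hy, by omega, hyj⟩⟩
    rcases hside with hside | hside
    · have hsub : endH k P false j ⊂ endH k P b i := by
        rw [Finset.ssubset_iff_of_subset]
        · refine ⟨v, hv, fun hc => ?_⟩
          have h0 : v j = 0 := (Finset.mem_filter.1 hc).2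
          omega
        · intro x hx
          obtain ⟨hxP, hx0⟩ := Finset.mem_filter.1 hx
          have h0 : x j = 0 := hx0
          exact hside x hxP (by omega)
      have hlt := Finset.card_lt_card hsub
      exact ih _ (by omega) j false hkj rfl
    · have hsub : endH k P true j ⊂ endH k P b i := by
        rw [Finset.ssubset_iff_of_subset]
        · refine ⟨u, hu, fun hc => ?_⟩
          have h0 : u j = k j - 1 := (Finset.mem_filter.1 hc).2
          omega
        · intro x hx
          obtain ⟨hxP, hx0⟩ := Finset.mem_filter.1 hx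
          have h0 : x j = k j - 1 := hx0
          exact hside x hxP (by omega)
      have hlt := Finset.card_lt_card hsub
      exact ih _ (by omega) j true hkj rfl

theorem leaf {k : Fin d → ℕ} {P : Finset (Fin d → ℕ)} (hP : P ⊆ box k) (hN : Noncr P)
    (hk : ∃ i, 2 ≤ k i) : ∃ i, 2 ≤ k i ∧
      ((∀ x ∈ P, ∀ y ∈ P, x i = k i - 1 → y i = k i - 1 → x = y) ∨
        (∀ x ∈ P, ∀ y ∈ P, x i = 0 → y i = 0 → x = y)) := by
  by_contra hc
  push Not at hc
  obtain ⟨i, hi⟩ := hk
  refine leaf_aux hP hN ?_ _ i true hi rfl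
  intro i hi b
  obtain ⟨⟨x, hx, y, hy, hxi, hyi, hxy⟩, ⟨x', hx', y', hy', hxi', hyi', hxy'⟩⟩ := hc i hi
  cases b with
  | true => exact ⟨x, Finset.mem_filter.2 ⟨hx, hxi⟩, y, Finset.mem_filter.2 ⟨hy, hyi⟩, hxy⟩
  | false => exact ⟨x', Finset.mem_filter.2 ⟨hx', hxi'⟩, y', Finset.mem_filter.2 ⟨hy', hyi'⟩, hxy'⟩

/-- a noncrossing pattern can be pushed to a point -/
theorem Noncr.push {P : Finset (Fin d → ℕ)} (hN : Noncr P) (hne : P.Nonempty) {k : Fin d → ℕ}
    (hP : P ⊆ box k) : Push k P (fun _ => 1) {fun _ => 0} := by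
  obtain ⟨N, hs⟩ : ∃ N, ∑ l, k l = N := ⟨_, rfl⟩
  induction N using Nat.strong_induction_on generalizing k P with
  | _ N ih =>
    by_cases hk : ∃ i, 2 ≤ k i
    · obtain ⟨i, hi, hcase⟩ := leaf hP hN hk
      obtain ⟨c, hc⟩ : ∃ c, k i = c + 2 := ⟨k i - 2, by omega⟩
      have hsum : ∑ l, Function.update k i (c + 1) l < N := by
        rw [← hs]
        apply Finset.sum_lt_sum
        · intro l _
          rcases eq_or_ne l i with rfl | hl
          · rw [Function.update_self]
            omega
          · rw [Function.update_of_ne hl]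
        · exact ⟨i, Finset.mem_univ i, by rw [Function.update_self]; omega⟩
      rcases hcase with hcase | hcase
      · refine Push.top k _ P _ i c hc ?_ (ih _ hsum (hN.top i c) (hne.image _)
          (image_top_box hP) rfl)
        intro x hx y hy hxi hyi
        exact hcase x hx y hy (by omega) (by omega)
      · exact Push.bot k _ P _ i c hc hcase (ih _ hsum (hN.bot i) (hne.image _)
          (image_bot_box hc hP) rfl)
    · push Not at hk
      have h1 : ∀ x ∈ P, x = fun _ => 0 := by
        intro x hx
        funext l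
        have e1 := mem_box.1 (hP hx) l
        have e2 := hk l
        omega
      obtain ⟨x0, hx0⟩ := hne
      have h2 : P = {fun _ => 0} := by
        apply Finset.eq_singleton_iff_unique_mem.2
        refine ⟨?_, h1⟩
        rw [← h1 x0 hx0]
        exact hx0
      have h3 : k = fun _ => 1 := by
        funext l
        have e1 := mem_box.1 (hP hx0) l
        have e2 := hk l
        omega
      rw [h2, h3]
      exact Push.refl _ _

theorem exB_point (m : Fin d → ℕ) : exB (fun _ => 1) m {fun _ => 0} = 0 := by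
  refine Nat.eq_zero_of_le_zero (exB_le fun A hA hav => ?_)
  by_contra hc
  have hpos : 0 < A.card := by omega
  obtain ⟨a, ha⟩ := Finset.card_pos.1 hpos
  apply hav
  refine ⟨fun l m => a l + m, fun l x y hxy => by simpa using hxy, fun l => ?_, ?_⟩
  · exact mem_box.1 (hA ha) l
  · intro x hx
    rw [Finset.mem_singleton] at hx
    subst hx
    simpa using ha

/-- the exact value for noncrossing patterns -/
theorem Noncr.exact {P : Finset (Fin d → ℕ)} (hN : Noncr P) (hne : P.Nonempty) {k : Fin d → ℕ}
    (hP : P ⊆ box k) (n : Fin d → ℕ) :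
    exB k n P + ∏ l, (n l - (k l - 1)) = ∏ l, n l := by
  obtain ⟨y, hy⟩ := hne
  have hk : ∀ l, y l + 1 ≤ k l := fun l => mem_box.1 (hP hy) l
  have hpush := hN.push ⟨y, hy⟩ hP
  have h := Push.exact hpush hP ⟨y, hy⟩ (t := y) hk (by
    intro x hx
    rw [Finset.mem_singleton] at hx
    subst hx
    simpa using hy) n
  rw [h, exB_point, add_zero]

end Pool.Agent.MatPush
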